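import Pool.Agent.Y969.GP.Def
import Pool.Agent.TH570.GS.SM

/-!
Mean square of zeta on the lines `1/2 ≤ x ≤ 2`, and second moment of zeta.
-/

set_option autoImplicit false

namespace Pool.Agent.Y363.GP

open Complex Filter Topology MeasureTheory Set
open Pool.Agent.Y969.GP

/-- SM: second moment of zeta -/
theorem t_SM : S_SM := by
  obtain ⟨C, T0, hC, hT0, h⟩ := Pool.Agent.TH570.GS.t_SM
  have hff : ff = fun u => ‖Pool.Agent.TH612.GS.z u‖ ^ 2 := rfl
  have hcont : Continuous ff := by
    rw [hff]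
    exact (Pool.Agent.TH570.GS.z_cont.norm).pow 2
  have hnn : ∀ u, 0 ≤ ff u := fun u => by
    rw [hff]
    positivity
  set K := ∫ u in (0:ℝ)..(2 * T0), ff u with hK
  have hK0 : 0 ≤ K := intervalIntegral.integral_nonneg (by linarith) (fun u _ => hnn u)
  have hl2 : 0 < Real.log 2 := Real.log_pos (by norm_num)
  refine ⟨C + K / Real.log 2, by positivity, fun T hT => ?_⟩
  have hlT : Real.log 2 ≤ Real.log T := Real.log_le_log (by norm_num) hT
  have hlT0 : 0 < Real.log T := by linarith
  have hT0' : 0 < T := by linarith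
  have e : (C + K / Real.log 2) * T * Real.log T =
      C * T * Real.log T + K / Real.log 2 * T * Real.log T := by ring
  rw [e]
  rcases le_total T0 T with h1 | h1
  · have h2 : ∫ u in (0:ℝ)..(2 * T), ff u ≤ C * T * Real.log T := h T h1
    have h3 : 0 ≤ K / Real.log 2 * T * Real.log T := by positivity
    linarith
  · have h2 : ∫ u in (0:ℝ)..(2 * T), ff u ≤ K :=
      intervalIntegral.integral_mono_interval le_rfl (by linarith) (by linarith)
        (Filter.Eventually.of_forall fun u => hnn u) (hcont.intervalIntegrable _ _)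
    have h3 : 0 ≤ C * T * Real.log T := by positivity
    have h4 : K ≤ K / Real.log 2 * T * Real.log T := by
      have h5 : K = K / Real.log 2 * 1 * Real.log 2 := by field_simp
      calc K = K / Real.log 2 * 1 * Real.log 2 := h5
        _ ≤ K / Real.log 2 * T * Real.log T := by
          apply mul_le_mul _ hlT hl2.le (by positivity)
          exact mul_le_mul_of_nonneg_left (by linarith) (by positivity)
    linarith

/-- ZL: mean square of zeta on the lines to the right of the critical line -/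
theorem t_ZL : S_ZL := by
  intro κ hκ
  obtain ⟨C, T1, hC, hT1, h⟩ := Pool.Agent.TH570.GS.msz
  have hne : ∀ x v : ℝ, 0 < v → (x : ℂ) + I * v ≠ 1 := by
    intro x v hv h1
    have h2 := congrArg Complex.im h1
    simp at h2
    linarith
  have hcomp : IsCompact (Icc (1 / 2 : ℝ) 2 ×ˢ Icc (1 : ℝ) (3 * T1)) :=
    isCompact_Icc.prod isCompact_Icc
  have hc : ContinuousOn (fun p : ℝ × ℝ => ‖riemannZeta ((p.1 : ℂ) + I * p.2)‖ ^ 2)
      (Icc (1 / 2 : ℝ) 2 ×ˢ Icc (1 : ℝ) (3 * T1)) := by
    intro p hp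
    have h1 : ContinuousAt riemannZeta ((p.1 : ℂ) + I * p.2) :=
      (differentiableAt_riemannZeta (hne _ _ (by linarith [hp.2.1]))).continuousAt
    have h2 : ContinuousAt (fun p : ℝ × ℝ => (p.1 : ℂ) + I * p.2) p := by fun_prop
    exact ((ContinuousAt.comp (f := fun p : ℝ × ℝ => (p.1 : ℂ) + I * p.2) h1 h2).norm.pow
      2).continuousWithinAt
  obtain ⟨M, hM⟩ := hcomp.exists_bound_of_continuousOn hc
  refine ⟨|M| * (3 * T1) + C / κ + 1, by positivity, fun x T hx1 hx2 hT => ?_⟩
  set f : ℝ → ℝ := fun v => ‖riemannZeta (x + I * v)‖ ^ 2 with hf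
  have hfn : ∀ v, 0 ≤ f v := fun v => by positivity
  have hfi : ∀ a b : ℝ, 1 ≤ a → 1 ≤ b → IntervalIntegrable f volume a b := by
    intro a b ha hb
    apply ContinuousOn.intervalIntegrable
    intro v hv
    have hv1 : 0 < v := by
      have h1 := hv.1
      have h2 : (1 : ℝ) ≤ min a b := le_min ha hb
      linarith
    have h1 : ContinuousAt riemannZeta ((x : ℂ) + I * v) :=
      (differentiableAt_riemannZeta (hne _ _ hv1)).continuousAt
    have h2 : ContinuousAt (fun v : ℝ => (x : ℂ) + I * v) v := by fun_prop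
    exact ((ContinuousAt.comp (f := fun v : ℝ => (x : ℂ) + I * v) h1 h2).norm.pow
      2).continuousWithinAt
  set G : ℝ → ℝ := fun y => ∫ v in (1:ℝ)..(max 1 y), f v with hG
  have hadd : ∀ a b : ℝ, G b = G a + ∫ v in (max 1 a)..(max 1 b), f v := fun a b =>
    (intervalIntegral.integral_add_adjacent_intervals (hfi _ _ le_rfl (le_max_left _ _))
      (hfi _ _ (le_max_left _ _) (le_max_left _ _))).symm
  have hmono : Monotone G := by
    intro a b hab
    rw [hadd a b]
    have := intervalIntegral.integral_nonneg (f := f) (μ := volume)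
      (max_le_max (le_refl (1 : ℝ)) hab) (fun u _ => hfn u)
    linarith
  have hstep : ∀ T, T1 ≤ T → G (3 * T) ≤ G (T / 2) + C * T * Real.log T := by
    intro T hT
    rw [hadd (T / 2) (3 * T), max_eq_right (by linarith), max_eq_right (by linarith)]
    have h1 := h T x hT hx1
    have e : (fun t : ℝ => ‖riemannZeta ((x : ℂ) + t * I)‖ ^ 2) = f := by
      funext u
      rw [hf]
      simp only
      rw [mul_comm (u : ℂ) I]
    rw [e] at h1
    linarith
  obtain ⟨n, hn⟩ := pow_unbounded_of_one_lt T (show (1 : ℝ) < 6 by norm_num)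
  have h1 := Pool.Agent.TH570.GS.grow G C T1 hC hT1 hmono hstep n T hT (by
    have : (1 : ℝ) ≤ 3 * T1 := by linarith
    nlinarith [pow_pos (show (0 : ℝ) < 6 by norm_num) n])
  have h2 : G (3 * T1) ≤ |M| * (3 * T1) := by
    have h3 : ‖∫ v in (1:ℝ)..(3 * T1), f v‖ ≤ |M| * |3 * T1 - 1| := by
      apply intervalIntegral.norm_integral_le_of_norm_le_const
      intro v hv
      rw [uIoc_of_le (by linarith)] at hv
      exact (hM (x, v) ⟨⟨hx1, hx2⟩, ⟨hv.1.le, hv.2⟩⟩).trans (le_abs_self _)
    have h4 : G (3 * T1) = ∫ v in (1:ℝ)..(3 * T1), f v := by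
      rw [hG]
      simp only
      rw [max_eq_right (by linarith)]
    rw [h4]
    refine (le_abs_self _).trans (h3.trans ?_)
    rw [abs_of_nonneg (by linarith : (0 : ℝ) ≤ 3 * T1 - 1)]
    exact mul_le_mul_of_nonneg_left (by linarith) (abs_nonneg _)
  have h3 : G T = ∫ v in (1:ℝ)..T, f v := by
    rw [hG]
    simp only
    rw [max_eq_right hT]
  rw [← h3]
  have hT0 : 0 < T := by linarith
  have h4 : (1 : ℝ) ≤ T ^ (1 + κ) := Real.one_le_rpow hT (by linarith)
  have h5 : T * Real.log T ≤ T ^ (1 + κ) / κ := by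
    have h6 := Real.log_le_rpow_div hT0.le hκ
    rw [Real.rpow_add hT0, Real.rpow_one, mul_div_assoc]
    exact mul_le_mul_of_nonneg_left h6 hT0.le
  calc G T ≤ G (3 * T1) + C * T * Real.log T := h1
    _ ≤ |M| * (3 * T1) * T ^ (1 + κ) + C * (T ^ (1 + κ) / κ) := by
      have h6 : |M| * (3 * T1) * 1 ≤ |M| * (3 * T1) * T ^ (1 + κ) :=
        mul_le_mul_of_nonneg_left h4 (by positivity)
      have h7 := mul_le_mul_of_nonneg_left h5 hC.le
      nlinarith
    _ ≤ (|M| * (3 * T1) + C / κ + 1) * T ^ (1 + κ) := by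
      have e : (|M| * (3 * T1) + C / κ + 1) * T ^ (1 + κ) =
        |M| * (3 * T1) * T ^ (1 + κ) + C * (T ^ (1 + κ) / κ) + T ^ (1 + κ) := by ring
      rw [e]
      linarith

end Pool.Agent.Y363.GP
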